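import Pool.Agent.N162.HN.Stm2
import Pool.Agent.N162.HN.Pts
import Pool.Agent.N162.HN.FinalB
import Pool.Agent.N162.BC.Forms
import Pool.Agent.TH466.QG.Low
import Pool.Agent.Y184.NT.Main2

/-!
A relation with irrational coefficient between two fibres splits.
-/

set_option autoImplicit false

open FF Pool.Agent.W603.LV Pool.Agent.Y184.NT Pool.Agent.N162.BC MvPolynomial IntermediateField
open Pool.Agent.N162.HN

namespace Pool.Agent.N459.HO

/-- the rational part of a combination -/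
theorem split_ {r : ℕ} {P Ω : Type} [Field Ω] [CharZero Ω] (c : P → Ω) (cyc : Fin r → P → ℤ)
    (lam : Ω) (hlam : ∀ q : ℚ, (q : Ω) ≠ lam) (hc : ∀ p, c p = 0 ∨ c p = 1 ∨ c p = -lam)
    (J : Finset (Fin r)) (a : Fin r → Ω) (h1 : ∀ p, c p = ∑ j ∈ J, a j * (cyc j p : Ω))
    (h2 : ∀ j ∈ J, ∃ p, c p ≠ 0 ∧ c p = a j * (cyc j p : Ω)) :
    ∃ b : Fin r → ℚ, ∀ p, (c p = 1 → ∑ j ∈ J, (b j : Ω) * (cyc j p : Ω) = 1) ∧
      (c p ≠ 1 → ∑ j ∈ J, (b j : Ω) * (cyc j p : Ω) = 0) := by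
  have hlam0 : lam ≠ 0 := by
    intro h
    apply hlam 0
    rw [h, Rat.cast_zero]
  have h3 : ∀ j, ∃ b s : ℚ, j ∈ J → a j = (b : Ω) - lam * (s : Ω) := by
    intro j
    by_cases hj : j ∈ J
    · obtain ⟨p, hp0, hp⟩ := h2 j hj
      have hcy : (cyc j p : Ω) ≠ 0 := by
        intro h
        rw [h, mul_zero] at hp
        exact hp0 hp
      rcases hc p with h | h | h
      · exact absurd h hp0
      · refine ⟨1 / (cyc j p : ℚ), 0, fun _ => ?_⟩
        rw [h] at hp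
        push_cast
        rw [mul_zero, sub_zero]
        field_simp
        rw [← hp]
      · refine ⟨0, 1 / (cyc j p : ℚ), fun _ => ?_⟩
        rw [h] at hp
        push_cast
        rw [zero_sub, mul_one_div]
        field_simp
        rw [← hp]
    · exact ⟨0, 0, fun h => absurd h hj⟩
  choose b s hbs using h3
  refine ⟨b, fun p => ?_⟩
  obtain ⟨R, hR⟩ : ∃ R : ℚ, R = ∑ j ∈ J, b j * (cyc j p : ℚ) := ⟨_, rfl⟩
  obtain ⟨S, hS⟩ : ∃ S : ℚ, S = ∑ j ∈ J, s j * (cyc j p : ℚ) := ⟨_, rfl⟩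
  have hR' : ∑ j ∈ J, (b j : Ω) * (cyc j p : Ω) = (R : Ω) := by
    rw [hR]
    push_cast
    rfl
  have hS' : ∑ j ∈ J, (s j : Ω) * (cyc j p : Ω) = (S : Ω) := by
    rw [hS]
    push_cast
    rfl
  have h4 : c p = (R : Ω) - lam * (S : Ω) := by
    rw [h1 p, ← hR', ← hS', Finset.mul_sum, ← Finset.sum_sub_distrib]
    refine Finset.sum_congr rfl fun j hj => ?_
    rw [hbs j hj]
    ring
  -- a linear relation over the rationals is trivial
  have h5 : ∀ u v : ℚ, (u : Ω) = lam * (v : Ω) → u = 0 ∧ v = 0 := by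
    intro u v h
    have hv : v = 0 := by
      by_contra hv
      apply hlam (u / v)
      have hv' : (v : Ω) ≠ 0 := Rat.cast_ne_zero.2 hv
      push_cast
      rw [h]
      field_simp
    refine ⟨?_, hv⟩
    rw [hv, Rat.cast_zero, mul_zero] at h
    exact_mod_cast h
  rw [hR']
  constructor
  · intro h
    have h6 : ((R - 1 : ℚ) : Ω) = lam * (S : Ω) := by
      push_cast
      rw [h] at h4
      linear_combination -h4
    have h7 := (h5 _ _ h6).1
    have h8 : R = 1 := by linarith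
    rw [h8, Rat.cast_one]
  · intro h
    rcases hc p with h6 | h6 | h6
    · have h7 : (R : Ω) = lam * (S : Ω) := by
        rw [h6] at h4
        linear_combination -h4
      rw [(h5 _ _ h7).1, Rat.cast_zero]
    · exact absurd h6 h
    · have h7 : (R : Ω) = lam * ((S - 1 : ℚ) : Ω) := by
        rw [h6] at h4
        push_cast
        linear_combination -h4
      rw [(h5 _ _ h7).1, Rat.cast_zero]

/-- substitutions compose -/
theorem sub_sub_ {n : ℕ} {M M' : Matrix (Fin (n + 2)) (Fin (n + 2)) ℚ} (h : M' * M = 1)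
    (F : MvPolynomial (Fin (n + 2)) ℂ) : sub M (sub M' F) = F := by
  unfold Pool.Agent.N162.HN.sub
  rw [comp_aeval_apply]
  have h1 : (fun i => (aeval fun i => ∑ j, C (M i j : ℂ) * X j)
      (∑ j, C (M' i j : ℂ) * (X j : MvPolynomial (Fin (n + 2)) ℂ))) =
      (X : Fin (n + 2) → MvPolynomial (Fin (n + 2)) ℂ) := by
    funext i
    rw [map_sum]
    have h2 : ∀ j, (aeval fun i => ∑ j, C (M i j : ℂ) * X j)
        (C (M' i j : ℂ) * (X j : MvPolynomial (Fin (n + 2)) ℂ)) =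
        ∑ k, C ((M' i j : ℂ) * (M j k : ℂ)) * (X k : MvPolynomial (Fin (n + 2)) ℂ) := by
      intro j
      rw [map_mul, aeval_X, aeval_C, Finset.mul_sum]
      refine Finset.sum_congr rfl fun k _ => ?_
      rw [C_mul, mul_assoc]
      rfl
    simp only [h2]
    rw [Finset.sum_comm]
    have h3 : ∀ k, ∑ j, C ((M' i j : ℂ) * (M j k : ℂ)) * (X k : MvPolynomial (Fin (n + 2)) ℂ) =
        if i = k then X k else 0 := by
      intro k
      rw [← Finset.sum_mul, ← map_sum]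
      have h4 := congrFun (congrFun h i) k
      rw [Matrix.mul_apply, Matrix.one_apply] at h4
      have h5 : ∑ j, (M' i j : ℂ) * (M j k : ℂ) = if i = k then 1 else 0 := by
        have h6 := congrArg (fun q : ℚ => (q : ℂ)) h4
        push_cast at h6
        rw [h6]
        split_ifs <;> simp
      rw [h5]
      split_ifs
      · rw [C_1, one_mul]
      · rw [C_0, zero_mul]
    simp only [h3, Finset.sum_ite_eq, Finset.mem_univ, if_true]
  rw [h1, aeval_X_left, AlgHom.id_apply]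

section

variable {n : ℕ} {L K Ω : Type} [Field L] [Algebra ℂ L] [Field K] [Algebra ℂ K]
  [Algebra L K] [IsScalarTower ℂ L K] [FiniteDimensional L K] [Field Ω] [Algebra ℂ Ω] [Algebra L Ω]
  [IsScalarTower ℂ L Ω]

omit [Algebra ℂ L] [IsScalarTower ℂ L K] [FiniteDimensional L K] [IsScalarTower ℂ L Ω] in
/-- the values of the difference of the two fibres -/
theorem vals_ {f : (K →ₐ[ℂ] Ω) →₀ Ω}
    (hf : ∀ σ : K →ₐ[ℂ] Ω, (f σ = 1 ∧ Fix L σ) ∨ (f σ = 0 ∧ ¬ Fix L σ))
    (τ : Ω ≃ₐ[ℂ] Ω) (lam : Ω) (hτ : ∃ a : L, τ (algebraMap L Ω a) ≠ algebraMap L Ω a)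
    (σ : K →ₐ[ℂ] Ω) :
    (f σ = 1 → (f - lam • f.mapDomain (fun σ => (τ : Ω →ₐ[ℂ] Ω).comp σ)) σ = 1) ∧
    (f σ ≠ 1 → f σ = 0 ∧ ((f - lam • f.mapDomain (fun σ => (τ : Ω →ₐ[ℂ] Ω).comp σ)) σ = 0 ∨
      (f - lam • f.mapDomain (fun σ => (τ : Ω →ₐ[ℂ] Ω).comp σ)) σ = -lam)) := by
  have hinj : Function.Injective (fun σ : K →ₐ[ℂ] Ω => (τ : Ω →ₐ[ℂ] Ω).comp σ) := by
    intro σ σ' h
    apply AlgHom.ext
    intro b
    exact τ.injective (DFunLike.congr_fun h b)
  obtain ⟨ρ, hρ⟩ : ∃ ρ : K →ₐ[ℂ] Ω, σ = (τ : Ω →ₐ[ℂ] Ω).comp ρ := by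
    refine ⟨(τ.symm : Ω →ₐ[ℂ] Ω).comp σ, ?_⟩
    apply AlgHom.ext
    intro b
    exact (τ.apply_symm_apply (σ b)).symm
  have h1 : f.mapDomain (fun σ : K →ₐ[ℂ] Ω => (τ : Ω →ₐ[ℂ] Ω).comp σ) σ = f ρ := by
    have h2 := Finsupp.mapDomain_apply hinj f ρ
    rw [hρ]
    exact h2
  have h2 : (f - lam • f.mapDomain (fun σ => (τ : Ω →ₐ[ℂ] Ω).comp σ)) σ = f σ - lam * f ρ := by
    rw [Finsupp.sub_apply, Finsupp.smul_apply, smul_eq_mul, h1]
  rw [h2]
  constructor
  · intro h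
    rcases hf ρ with h3 | h3
    · exfalso
      rcases hf σ with h4 | h4
      · obtain ⟨a, ha⟩ := hτ
        apply ha
        have h5 := h4.2 a
        rw [hρ] at h5
        have h6 : ((τ : Ω →ₐ[ℂ] Ω).comp ρ) (algebraMap L K a) = τ (ρ (algebraMap L K a)) := rfl
        rw [h6, h3.2 a] at h5
        exact h5
      · rw [h4.1] at h
        exact one_ne_zero h.symm
    · rw [h, h3.1, mul_zero, sub_zero]
  · intro h
    rcases hf σ with h4 | h4
    · exact absurd h4.1 h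
    · refine ⟨h4.1, ?_⟩
      rw [h4.1, zero_sub]
      rcases hf ρ with h3 | h3
      · right
        rw [h3.1, mul_one]
      · left
        rw [h3.1, mul_zero, neg_zero]

theorem card_ [IsAlgClosed Ω] {f : (K →ₐ[ℂ] Ω) →₀ Ω}
    (hf : ∀ σ : K →ₐ[ℂ] Ω, (f σ = 1 ∧ Fix L σ) ∨ (f σ = 0 ∧ ¬ Fix L σ)) :
    f.support.card = Module.finrank L K := by
  obtain ⟨f0, hf0, hf0c⟩ := exists_fibre (K := K) (Ω := Ω) L
  rw [← hf0c]
  congr 1
  ext σ
  rw [Finsupp.mem_support_iff, Finsupp.mem_support_iff]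
  rcases hf σ with h | h <;> rcases hf0 σ with h' | h'
  · rw [h.1, h'.1]
    exact ⟨fun _ => one_ne_zero, fun _ => one_ne_zero⟩
  · exact absurd h.2 h'.2
  · exact absurd h'.2 h.2
  · rw [h.1, h'.1]
    exact ⟨fun h => absurd rfl h, fun h => absurd rfl h⟩

theorem card2_ [IsAlgClosed Ω] {f : (K →ₐ[ℂ] Ω) →₀ Ω}
    (hf : ∀ σ : K →ₐ[ℂ] Ω, (f σ = 1 ∧ Fix L σ) ∨ (f σ = 0 ∧ ¬ Fix L σ)) (τ : Ω ≃ₐ[ℂ] Ω) (lam : Ω) :
    (f - lam • f.mapDomain (fun σ => (τ : Ω →ₐ[ℂ] Ω).comp σ)).support.card ≤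
      2 * Module.finrank L K := by
  classical
  have h1 := card_ (L := L) hf
  have h2 : (f - lam • f.mapDomain (fun σ => (τ : Ω →ₐ[ℂ] Ω).comp σ)).support ⊆
      f.support ∪ f.support.image (fun σ => (τ : Ω →ₐ[ℂ] Ω).comp σ) := by
    refine Finsupp.support_sub.trans (Finset.union_subset_union (Finset.Subset.refl _) ?_)
    exact Finsupp.support_smul.trans Finsupp.mapDomain_support
  calc _ ≤ (f.support ∪ f.support.image (fun σ => (τ : Ω →ₐ[ℂ] Ω).comp σ)).card :=
        Finset.card_le_card h2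
    _ ≤ f.support.card + (f.support.image (fun σ => (τ : Ω →ₐ[ℂ] Ω).comp σ)).card :=
        Finset.card_union_le _ _
    _ ≤ f.support.card + f.support.card := Nat.add_le_add_left Finset.card_image_le _
    _ = 2 * Module.finrank L K := by rw [h1]; ring

end

/-- a combination of the relations of the curves -/
theorem comb_ {n r m : ℕ} {K Ω : Type} [Field K] [Algebra ℂ K] [Field Ω] [Algebra ℂ Ω]
    {x : Fin (n + 2) → K} (hgen : IntermediateField.adjoin ℂ (Set.range x) = ⊤)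
    (κ : (Fin (n + 2) → Ω) → Ω) (cyc : Fin r → (Fin (n + 2) → Ω) →₀ ℤ)
    (hcyc : ∀ i p, cyc i p ≠ 0 → ∃ σ : K →ₐ[ℂ] Ω, p = pt x σ) (hrel : ∀ i, Rel m κ (cyc i))
    (J : Finset (Fin r)) (b : Fin r → Ω) (f : (K →ₐ[ℂ] Ω) →₀ Ω)
    (hf : ∀ σ, f σ = ∑ j ∈ J, b j * (cyc j (pt x σ) : Ω)) (P : MvPolynomial (Fin (n + 2)) Ω)
    (hP : P.IsHomogeneous m) :
    ∑ σ ∈ f.support, f σ * (κ (pt x σ) * eval (pt x σ) P) = 0 := by
  classical
  have hinj := pt_inj (Ω := Ω) hgen
  obtain ⟨T, hT⟩ : ∃ T : Finset (K →ₐ[ℂ] Ω), T = f.support ∪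
      Finset.univ.biUnion fun j => (cyc j).support.preimage (pt x) hinj.injOn := ⟨_, rfl⟩
  have h1 : ∑ σ ∈ f.support, f σ * (κ (pt x σ) * eval (pt x σ) P) =
      ∑ σ ∈ T, f σ * (κ (pt x σ) * eval (pt x σ) P) := by
    refine Finset.sum_subset (by rw [hT]; exact Finset.subset_union_left) fun σ _ hσ => ?_
    rw [Finsupp.notMem_support_iff.1 hσ, zero_mul]
  have h2 : ∀ j, ∑ σ ∈ T, (cyc j (pt x σ) : Ω) * (κ (pt x σ) * eval (pt x σ) P) = 0 := by
    intro j
    have h3 := hrel j P hP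
    unfold Lam at h3
    rw [← h3]
    have h4 : ∑ σ ∈ T, (cyc j (pt x σ) : Ω) * (κ (pt x σ) * eval (pt x σ) P) =
        ∑ p ∈ T.image (pt x), (cyc j p : Ω) * (κ p * eval p P) := by
      rw [Finset.sum_image hinj.injOn]
    rw [h4]
    symm
    refine Finset.sum_subset ?_ fun p _ hp => ?_
    · intro p hp
      obtain ⟨σ, hσ⟩ := hcyc j p (Finsupp.mem_support_iff.1 hp)
      rw [Finset.mem_image]
      refine ⟨σ, ?_, hσ.symm⟩
      rw [hT, Finset.mem_union, Finset.mem_biUnion]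
      right
      refine ⟨j, Finset.mem_univ _, ?_⟩
      rw [Finset.mem_preimage, ← hσ]
      exact hp
    · rw [Finsupp.notMem_support_iff.1 hp, Int.cast_zero, zero_mul]
  rw [h1]
  have h5 : ∀ σ ∈ T, f σ * (κ (pt x σ) * eval (pt x σ) P) =
      ∑ j ∈ J, b j * ((cyc j (pt x σ) : Ω) * (κ (pt x σ) * eval (pt x σ) P)) := by
    intro σ _
    rw [hf σ, Finset.sum_mul]
    refine Finset.sum_congr rfl fun j _ => ?_
    ring
  rw [Finset.sum_congr rfl h5, Finset.sum_comm]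
  refine Finset.sum_eq_zero fun j _ => ?_
  rw [← Finset.mul_sum, h2, mul_zero]

theorem gtc_ (hB1 : StB1) (hIRR : StIRR) (hCONFO : StCONFO) (hMAINO : StMAINO) (hRELM : StRELM) :
    Pool.Agent.N162.HN.StGTC := by
  intro n L K Ω _ _ _ _ _ _ _ _ _ _ _ _ _ F d m N hn hs hF hm h7 hN h3 x hx0 hx hgen hK hr f hf τ
    lam hlam hτ hrel
  classical
  have hcL : CharZero L := charZero_of_injective_algebraMap (algebraMap ℂ L).injective
  have hcK : CharZero K := charZero_of_injective_algebraMap (algebraMap ℂ K).injective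
  have hcΩ : CharZero Ω := charZero_of_injective_algebraMap (algebraMap ℂ Ω).injective
  have hd2 : 2 ≤ d := by omega
  have hL : Algebra.trdeg ℂ L = n := Pool.Agent.Y184.NT.trdeg_below (K := K) hK
  have hΩ : Algebra.trdeg ℂ Ω = n := by
    have h1 := trdeg_add_eq ℂ L (A := Ω)
    have h2 : Algebra.trdeg L Ω = 0 := by
      rw [trdeg_eq_zero_iff]
      infer_instance
    rw [h2, add_zero, hL] at h1
    exact h1.symm
  have hval := vals_ (L := L) hf τ lam hτ
  have hcard := card2_ (L := L) hf τ lam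
  obtain ⟨f₁, hf₁⟩ : ∃ f₁ : (K →ₐ[ℂ] Ω) →₀ Ω,
      f₁ = f - lam • f.mapDomain (fun σ => (τ : Ω →ₐ[ℂ] Ω).comp σ) := ⟨_, rfl⟩
  rw [← hf₁] at hval hcard hrel
  have hne : f₁.support.Nonempty := by
    have h1 : 0 < f.support.card := by
      rw [card_ (L := L) hf]
      exact Module.finrank_pos
    obtain ⟨σ, hσ⟩ := Finset.card_pos.1 h1
    refine ⟨σ, ?_⟩
    rw [Finsupp.mem_support_iff] at hσ ⊢
    rcases hf σ with h | h
    · rw [(hval σ).1 h.1]
      exact one_ne_zero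
    · exact absurd h.1 hσ
  have hcard' : f₁.support.card < (N + 1) * (m + 2 - N) := lt_of_le_of_lt hcard hr
  obtain ⟨c, hc⟩ := Pool.Agent.Y184.NT.exists_c (n := n) hs (x := x) (j0 := 0)
    (by rw [hx0]; exact one_ne_zero)
  obtain ⟨y, hy⟩ := exists_tb (k := ℂ) (L := Ω) hΩ
  choose D hD using fun i : Fin n => Pool.Agent.W602.GT.exists_der y hy
    fun j => if i = j then (1 : Ω) else 0
  obtain ⟨M, M', A, hMM, hMM', hM0, hA, hcol⟩ :=
    hB1 n Ω (K →ₐ[ℂ] Ω) f₁.support (fun σ => pt x σ)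
      (fun σ => f₁ σ * (rows (n := n) (fun j => σ (c j)) (pt x σ) D).det) m N F hn
      hne
      (fun σ _ => by
        unfold pt
        rw [hx0, map_one])
      ((pt_inj hgen).injOn)
      (fun σ hσ => mul_ne_zero (Finsupp.mem_support_iff.1 hσ)
        (Pool.Agent.N162.HS.rows_ne (n := n) hF hd2 hx hc hx0 hgen hK hΩ hy hD σ))
      (fun P hP => by
        have h1 := hrel c hc D P hP
        rw [← h1]
        refine Finset.sum_congr rfl fun σ _ => ?_
        ring) h7 hcard'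
      (exists_o hn hs hF hd2)
  -- the new coordinates
  have hs' : Sm (sub M' F) := sub_Sm hs hMM hMM'
  have hF' : (sub M' F).IsHomogeneous d := sub_hom hF M'
  have hF3 : eval (Pi.single (Fin.last (n + 1)) 1) (sub M' F) ≠ 0 := by
    rw [eval_sub']
    have h1 : act M' (Pi.single (Fin.last (n + 1)) 1 : Fin (n + 2) → ℂ) =
        fun j => (M' j (Fin.last (n + 1)) : ℂ) := by
      funext j
      unfold act
      rw [Finset.sum_eq_single (Fin.last (n + 1))]
      · rw [Pi.single_eq_same, mul_one]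
      · intro k _ hk
        rw [Pi.single_eq_of_ne hk, mul_zero]
      · intro h
        exact absurd (Finset.mem_univ _) h
    rw [h1]
    exact hcol
  have hx0' : act M x 0 = 1 := by
    unfold act
    rw [Finset.sum_eq_single 0]
    · rw [hM0, if_pos rfl, hx0]
      simp
    · intro j _ hj
      rw [hM0, if_neg hj, Rat.cast_zero, zero_mul]
    · intro h
      exact absurd (Finset.mem_univ _) h
  have hx' : aeval (act M x) (sub M' F) = 0 := by
    rw [aeval_sub, act_act hMM', hx]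
  have hgen' : IntermediateField.adjoin ℂ (Set.range (act M x)) = ⊤ := adjoin_act hMM' hgen
  have hR : Relns (sub M' F) (act M x) :=
    hIRR n K (sub M' F) d (act M x) hn hs' hF' hd2 hx0' hx' hgen' hK
  have hrel' : RelF (sub M' F) (act M x) m f₁ := hRELM n K Ω F x m M M' hMM hMM' f₁ hrel
  obtain ⟨κ, r, g, on, cyc, c', hc1, hc2, hconf, hcyc, hlast⟩ :=
    hCONFO n K Ω (sub M' F) d m N hn hs' hF' hm h7 hN hF3 (act M x) hx0' hx' hgen' hK hΩ hR f₁ hrel'
      hcard' A (fun l => ⟨(hA l).1, (hA l).2.1, (hA l).2.2.1⟩) (fun σ hσ l => by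
        have h1 := (hA l).2.2.2 σ (Finsupp.mem_support_iff.2 hσ)
        rw [← pt_act] at h1
        exact h1)
  have hvals : ∀ p, c' p = 0 ∨ c' p = 1 ∨ c' p = -lam := by
    intro p
    by_cases hp : c' p = 0
    · exact Or.inl hp
    · obtain ⟨σ, hσ⟩ := hc2 p hp
      rw [hσ, hc1]
      by_cases h : f σ = 1
      · exact Or.inr (Or.inl ((hval σ).1 h))
      · rcases ((hval σ).2 h).2 with h' | h'
        · exact Or.inl h'
        · exact Or.inr (Or.inr h')
  obtain ⟨J, a, -, ha1, ha2⟩ := hMAINO n r Ω κ m N d c' g on cyc A hconf h3 ⟨1, -lam, hvals⟩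
  obtain ⟨b, hb⟩ := split_ (fun p => c' p) (fun j p => cyc j p) lam hlam hvals J a ha1 ha2
  have hfb : ∀ σ, f σ = ∑ j ∈ J, (b j : Ω) * (cyc j (pt (act M x) σ) : Ω) := by
    intro σ
    by_cases h : f σ = 1
    · rw [h]
      symm
      apply (hb (pt (act M x) σ)).1
      rw [hc1]
      exact (hval σ).1 h
    · rw [((hval σ).2 h).1]
      symm
      apply (hb (pt (act M x) σ)).2
      rw [hc1]
      rcases ((hval σ).2 h).2 with h' | h'
      · rw [h']
        exact zero_ne_one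
      · rw [h']
        intro h4
        apply hlam (-1)
        push_cast
        linear_combination h4
  have h4 : RelF (sub M' F) (act M x) m f := hlast f fun P hP =>
    comb_ hgen' κ cyc hcyc hconf.cycr J (fun j => (b j : Ω)) f hfb P hP
  have h5 := hRELM n K Ω (sub M' F) (act M x) m M' M hMM' hMM f h4
  rw [sub_sub_ hMM', act_act hMM'] at h5
  exact h5

end Pool.Agent.N459.HO
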